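import Pool.Agent.Work.MP_1c91cf_gt.Cone.Main

/-!
# The generalised oriented volume of a flexible polyhedron in `Λ^n`, `n ≥ 3`, is constant

The definitions are in `Pool/Agent/Work/MP_1c91cf_gt/Cone/Defs.lean`.
-/

set_option autoImplicit false

open MeasureTheory Set Pool.Agent.Work.MP_1c91cf_gt.Vol

namespace Pool.Agent.Results.MP_1c91cf_gt.FullAnswer

universe u

open Classical in
/-- The bellows conjecture in `Λ^n`, `n = k + 1`.

* First part (Q1 of the file): for every even `n ≥ 4`, every finite oriented closed
  `(n-1)`-dimensional pseudomanifold `K` and every continuous family of polyhedra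
  `P t : K → Λ^n`, `t ∈ [0, 1]`, with constant edge lengths, the generalised oriented volume
  `V(P t) = ∫ λ_{P t} dV` is constant.
* Second part: the same for every `n ≥ 3`, every integral simplicial cycle `K` and families
  over any path-connected space `T`.
* Third part (the notions are the intended ones): an oriented closed pseudomanifold is a cycle;
  for `x` outside `P(K)` there are generic rays and they all have the same intersection number
  `λ_P(x)`; `λ_P` is integrable, and `V(P)` is the signed sum of the hyperbolic volumes of the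
  geodesic cones from the origin over the facets. -/
theorem result :
    (∀ k m : ℕ, Even (k + 1) → 4 ≤ k + 1 →
      ∀ K : (Fin (k + 1) → Fin m) → ℤ, IsPseudomanifold K →
      ∀ P : unitInterval → Fin m → Fin (k + 1) → ℝ, IsFlexion K P →
      ∀ s t : unitInterval, genVol K (P s) = genVol K (P t)) ∧
    (∀ k m : ℕ, 3 ≤ k + 1 →
      ∀ K : (Fin (k + 1) → Fin m) → ℤ, IsCycle K →
      ∀ (T : Type u) [TopologicalSpace T] [PathConnectedSpace T]
        (P : T → Fin m → Fin (k + 1) → ℝ), IsFlexion K P →
      ∀ s t : T, genVol K (P s) = genVol K (P t)) ∧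
    (∀ (k m : ℕ) (K : (Fin (k + 1) → Fin m) → ℤ),
      (IsPseudomanifold K → IsCycle K) ∧
      (IsCycle K → ∀ p : Fin m → Fin (k + 1) → ℝ, (∀ v, p v ∈ Hyp (k + 1)) →
        (∀ x, x ∉ image K p → (∃ u, Generic K p x u) ∧
          ∀ u, Generic K p x u → intersectionNumber K p x u = lam K p x) ∧
        Integrable (fun x => (lam K p x : ℝ)) (hvol (k + 1)) ∧
        genVol K p = ∑ σ : Fin (k + 1) → Fin m with StrictMono σ,
          (K σ : ℝ) * ((SignType.sign (Matrix.det (Matrix.of (p ∘ σ))) : ℤ) : ℝ) *
            (hvol (k + 1)).real (convexHull ℝ (insert 0 (range (p ∘ σ)))))) := by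
  refine ⟨?_, ?_, ?_⟩
  · intro k m _ hk K hK P hP s t
    have : PathConnectedSpace unitInterval := isPathConnected_iff_pathConnectedSpace.1
      ((convex_Icc (0 : ℝ) 1).isPathConnected ⟨0, by simp⟩)
    exact bellows_general (by omega) (isCycle_of_isPseudomanifold hK) hP s t
  · intro k m hk K hK T _ _ P hP s t
    exact bellows_general (by omega) hK hP s t
  · intro k m K
    refine ⟨isCycle_of_isPseudomanifold, fun hK p hp => ⟨fun x hx => ⟨exists_generic hx,
      fun u hu => ?_⟩, genVol_eq hK hp⟩⟩
    have h1 := generic_iff.1 hu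
    rw [intersectionNumber_eq h1.1, lam_eq hK hx h1.2]

end Pool.Agent.Results.MP_1c91cf_gt.FullAnswer
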